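import Mathlib

/-!
# Factorizations of quaternionic polynomials into factors linear in one variable are not unique

`ℍ[u,v]` is modelled by `Polynomial (Polynomial ℍ[ℝ])`: the inner variable is `u`, the outer
variable is `v`; both are central.  In `ℍ[u,v]`

`(u - j) (v - (u² + 1) i) = (v - (u² - 1) i - 2 u k) (u - j)`,

all four factors are irreducible of degree at most one in `v`, and the factor `v - (u² + 1) i` is
similar to neither of the two factors on the right hand side.
-/

set_option autoImplicit false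

namespace Pool.Agent.Results.MP_628392_al.LinearFactors

open Polynomial Quaternion

/-- The ring `ℍ[u,v]`: polynomials in the central variable `v` (the outer variable) over the ring of
polynomials in the central variable `u` (the inner variable) with quaternionic coefficients. -/
abbrev HUV : Type := Polynomial (Polynomial ℍ[ℝ])

/-- Similarity in the sense of Ore: `R/RA` and `R/RB` are isomorphic left `R`-modules, where
`R = ℍ[u,v]` and `RA` is the left ideal generated by `A`. -/
def Similar (A B : HUV) : Prop :=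
  Nonempty ((HUV ⧸ Submodule.span HUV {A}) ≃ₗ[HUV] (HUV ⧸ Submodule.span HUV {B}))

/-- The list `l` is an admissible factorization of `F`: the ordered product of `l` is `F`, and every
member of `l` is irreducible in `ℍ[u,v]` and has degree at most one in `v`. -/
def IsAdmissible (l : List HUV) (F : HUV) : Prop :=
  l.prod = F ∧ ∀ A ∈ l, Irreducible A ∧ A.natDegree ≤ 1

/-- The members of the lists can be matched up into pairs of similar factors: `l₁` and `l₂` have
the same length and after a permutation of `l₂` the corresponding members are similar. -/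
def Matched (l₁ l₂ : List HUV) : Prop :=
  ∃ l : List HUV, l.Perm l₂ ∧ List.Forall₂ Similar l₁ l

/-- quaternion units -/
noncomputable def qi : ℍ[ℝ] := ⟨0, 1, 0, 0⟩
noncomputable def qj : ℍ[ℝ] := ⟨0, 0, 1, 0⟩
noncomputable def qk : ℍ[ℝ] := ⟨0, 0, 0, 1⟩

lemma ij : qi * qj = qk := by
  apply Quaternion.ext <;>
    simp only [Quaternion.re_mul, Quaternion.imI_mul, Quaternion.imJ_mul, Quaternion.imK_mul] <;>
    simp [qi, qj, qk]
lemma ji : qj * qi = -qk := by
  apply Quaternion.ext <;>
    simp only [Quaternion.re_mul, Quaternion.imI_mul, Quaternion.imJ_mul, Quaternion.imK_mul,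
      Quaternion.re_neg, Quaternion.imI_neg, Quaternion.imJ_neg, Quaternion.imK_neg] <;>
    simp [qi, qj, qk]
lemma jj : qj * qj = -1 := by
  apply Quaternion.ext <;>
    simp only [Quaternion.re_mul, Quaternion.imI_mul, Quaternion.imJ_mul, Quaternion.imK_mul,
      Quaternion.re_neg, Quaternion.imI_neg, Quaternion.imJ_neg, Quaternion.imK_neg] <;>
    simp [qj]
lemma kj : qk * qj = -qi := by
  apply Quaternion.ext <;>
    simp only [Quaternion.re_mul, Quaternion.imI_mul, Quaternion.imJ_mul, Quaternion.imK_mul,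
      Quaternion.re_neg, Quaternion.imI_neg, Quaternion.imJ_neg, Quaternion.imK_neg] <;>
    simp [qi, qj, qk]

/-- `a = (u² + 1) i` -/
noncomputable def pa : Polynomial ℍ[ℝ] := (X ^ 2 + 1) * C qi
/-- `b = (u² - 1) i + 2 u k` -/
noncomputable def pb : Polynomial ℍ[ℝ] := (X ^ 2 - 1) * C qi + 2 * X * C qk
/-- `h = u - j` -/
noncomputable def ph : Polynomial ℍ[ℝ] := X - C qj

lemma intertwine : ph * pa = pb * ph := by
  have h1 : ph * pa = X * (X ^ 2 + 1) * C qi - (X ^ 2 + 1) * C (qj * qi) := by
    simp only [ph, pa, C_mul]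
    have e1 : C qj * (X ^ 2 + 1 : Polynomial ℍ[ℝ]) = (X ^ 2 + 1) * C qj := by
      rw [mul_add, add_mul, mul_one, one_mul, ← X_pow_mul]
    rw [sub_mul, ← mul_assoc, ← mul_assoc (C qj), e1]
    simp only [mul_assoc]
  have h2 : pb * ph = (X ^ 2 - 1) * X * C qi - (X ^ 2 - 1) * C (qi * qj)
      + 2 * X * X * C qk - 2 * X * C (qk * qj) := by
    simp only [ph, pb, C_mul]
    have e2 : C qi * (X : Polynomial ℍ[ℝ]) = X * C qi := (X_mul_C qi).symm
    have e3 : C qk * (X : Polynomial ℍ[ℝ]) = X * C qk := (X_mul_C qk).symm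
    have : ((X ^ 2 - 1) * C qi + 2 * X * C qk) * (X - C qj : Polynomial ℍ[ℝ])
        = (X ^ 2 - 1) * (C qi * X) - (X ^ 2 - 1) * (C qi * C qj)
          + 2 * X * (C qk * X) - 2 * X * (C qk * C qj) := by
      noncomm_ring
    rw [this, e2, e3]
    simp only [mul_assoc]
  rw [h1, h2, ij, ji, kj]
  simp only [C_neg]
  noncomm_ring

/-- `v - a` for `a ∈ ℍ[u]` -/
noncomputable def lin (a : Polynomial ℍ[ℝ]) : HUV := X - C a

lemma lin_monic (a : Polynomial ℍ[ℝ]) : (lin a).Monic := monic_X_sub_C a

lemma lin_natDegree (a : Polynomial ℍ[ℝ]) : (lin a).natDegree = 1 := natDegree_X_sub_C a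

/-- `v - a` is irreducible. -/
lemma lin_irreducible (a : Polynomial ℍ[ℝ]) : Irreducible (lin a) := by
  have key : ∀ x y : HUV, lin a = x * y → x.natDegree = 0 → IsUnit x := by
    intro x y hxy hx
    obtain ⟨c, rfl⟩ := natDegree_eq_zero.1 hx
    have h1 : c * y.coeff 1 = 1 := by
      have := congrArg (fun p => coeff p 1) hxy
      simp [lin] at this
      exact this.symm
    have h2 : y.coeff 1 * c = 1 := by
      have hc : c ≠ 0 := by rintro rfl; simp at h1
      apply mul_left_cancel₀ hc
      rw [← mul_assoc, h1, one_mul, mul_one]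
    exact ⟨⟨C c, C (y.coeff 1), by rw [← C_mul, h1, C_1], by rw [← C_mul, h2, C_1]⟩, rfl⟩
  have key' : ∀ x y : HUV, lin a = x * y → y.natDegree = 0 → IsUnit y := by
    intro x y hxy hy
    obtain ⟨c, rfl⟩ := natDegree_eq_zero.1 hy
    have h1 : x.coeff 1 * c = 1 := by
      have := congrArg (fun p => coeff p 1) hxy
      simp [lin] at this
      exact this.symm
    have h2 : c * x.coeff 1 = 1 := by
      have hc : c ≠ 0 := by rintro rfl; simp at h1
      apply mul_right_cancel₀ hc
      rw [mul_assoc, h1, one_mul, mul_one]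
    exact ⟨⟨C c, C (x.coeff 1), by rw [← C_mul, h2, C_1], by rw [← C_mul, h1, C_1]⟩, rfl⟩
  refine ⟨fun hu => ?_, fun {x y} hxy => ?_⟩
  · obtain ⟨w, hw⟩ := hu
    have h1 : lin a * (w⁻¹ : HUVˣ) = 1 := by rw [← hw]; simp
    have h0 : ((w⁻¹ : HUVˣ) : HUV) ≠ 0 := Units.ne_zero _
    have := congrArg natDegree h1
    rw [natDegree_mul (lin_monic a).ne_zero h0, lin_natDegree, natDegree_one] at this
    omega
  · have hx : x ≠ 0 := by rintro rfl; rw [zero_mul] at hxy; exact (lin_monic a).ne_zero hxy
    have hy : y ≠ 0 := by rintro rfl; rw [mul_zero] at hxy; exact (lin_monic a).ne_zero hxy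
    have hd := congrArg natDegree hxy
    rw [natDegree_mul hx hy, lin_natDegree] at hd
    have : x.natDegree = 0 ∨ y.natDegree = 0 := by omega
    rcases this with h | h
    · exact Or.inl (key x y hxy h)
    · exact Or.inr (key' x y hxy h)

/-- `u - j` is irreducible in `ℍ[u,v]`. -/
lemma h_irreducible : Irreducible (C ph : HUV) := by
  have hm : ph.Monic := monic_X_sub_C qj
  have hd1 : ph.natDegree = 1 := natDegree_X_sub_C qj
  have unit0 : ∀ x : HUV, x ≠ 0 → x.natDegree = 0 → (x.coeff 0).natDegree = 0 → IsUnit x := by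
    intro x hx0 hx hx'
    obtain ⟨c, rfl⟩ := natDegree_eq_zero.1 hx
    rw [coeff_C_zero] at hx'
    obtain ⟨d, rfl⟩ := natDegree_eq_zero.1 hx'
    have hd : d ≠ 0 := by rintro rfl; simp at hx0
    exact ⟨⟨C (C d), C (C d⁻¹), by rw [← C_mul, ← C_mul, mul_inv_cancel₀ hd, C_1, C_1],
      by rw [← C_mul, ← C_mul, inv_mul_cancel₀ hd, C_1, C_1]⟩, rfl⟩
  refine ⟨fun hu => ?_, fun {x y} hxy => ?_⟩
  · obtain ⟨w, hw⟩ := hu
    have h1 : C ph * ((w⁻¹ : HUVˣ) : HUV) = 1 := by rw [← hw]; simp
    have h2 : ph * ((w⁻¹ : HUVˣ) : HUV).coeff 0 = 1 := by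
      have := congrArg (fun p => coeff p 0) h1
      simpa using this
    have h0 : ((w⁻¹ : HUVˣ) : HUV).coeff 0 ≠ 0 := by
      intro h; rw [h, mul_zero] at h2; exact zero_ne_one h2
    have := congrArg natDegree h2
    rw [natDegree_mul hm.ne_zero h0, hd1, natDegree_one] at this
    omega
  · have hC : (C ph : HUV) ≠ 0 := by
      intro h; exact hm.ne_zero (C_eq_zero.1 h)
    have hx : x ≠ 0 := by rintro rfl; rw [zero_mul] at hxy; exact hC hxy
    have hy : y ≠ 0 := by rintro rfl; rw [mul_zero] at hxy; exact hC hxy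
    have hd := congrArg natDegree hxy
    rw [natDegree_mul hx hy, natDegree_C] at hd
    have hxd : x.natDegree = 0 := by omega
    have hyd : y.natDegree = 0 := by omega
    have h2 : ph = x.coeff 0 * y.coeff 0 := by
      have := congrArg (fun p => coeff p 0) hxy
      simpa [mul_coeff_zero] using this
    have hx0 : x.coeff 0 ≠ 0 := by intro h; rw [h, zero_mul] at h2; exact hm.ne_zero h2
    have hy0 : y.coeff 0 ≠ 0 := by intro h; rw [h, mul_zero] at h2; exact hm.ne_zero h2
    have hd2 := congrArg natDegree h2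
    rw [natDegree_mul hx0 hy0, hd1] at hd2
    have : (x.coeff 0).natDegree = 0 ∨ (y.coeff 0).natDegree = 0 := by omega
    rcases this with h | h
    · exact Or.inl (unit0 x hx hxd h)
    · exact Or.inr (unit0 y hy hyd h)

/-- a polynomial of degree zero in `v` which is a left multiple of `v - b` vanishes -/
lemma C_mem_span {b p : Polynomial ℍ[ℝ]} (h : (C p : HUV) ∈ Submodule.span HUV {lin b}) :
    p = 0 := by
  obtain ⟨r, hr⟩ := Submodule.mem_span_singleton.1 h
  rw [smul_eq_mul] at hr
  by_contra hp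
  have hr0 : r ≠ 0 := by
    rintro rfl
    rw [zero_mul] at hr
    exact hp (C_eq_zero.1 hr.symm)
  have := congrArg natDegree hr
  rw [natDegree_mul hr0 (lin_monic b).ne_zero, lin_natDegree, natDegree_C] at this
  omega

/-- every element is congruent to one of degree zero in `v` modulo the left multiples of `v - b` -/
lemma exists_C (b : Polynomial ℍ[ℝ]) (r : HUV) :
    ∃ p : Polynomial ℍ[ℝ], r - C p ∈ Submodule.span HUV {lin b} := by
  induction r using Polynomial.induction_on' with
  | add r s hr hs =>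
    obtain ⟨p, hp⟩ := hr
    obtain ⟨q, hq⟩ := hs
    refine ⟨p + q, ?_⟩
    have : r + s - C (p + q) = (r - C p) + (s - C q) := by rw [C_add]; abel
    rw [this]
    exact Submodule.add_mem _ hp hq
  | monomial n c =>
    refine ⟨c * b ^ n, ?_⟩
    have h1 : ∀ m : ℕ, (X : HUV) ^ m - C (b ^ m) ∈ Submodule.span HUV {lin b} := by
      intro m
      induction m with
      | zero => simp
      | succ m ih =>
        have : (X : HUV) ^ (m + 1) - C (b ^ (m + 1))
            = X * (X ^ m - C (b ^ m)) + C (b ^ m) * lin b := by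
          rw [lin, mul_sub, mul_sub, ← C_mul, ← pow_succ, ← pow_succ', X_mul_C]
          abel
        rw [this]
        exact Submodule.add_mem _ (Submodule.smul_mem _ _ ih)
          (Submodule.smul_mem _ _ (Submodule.mem_span_singleton_self _))
    have : monomial n c - C (c * b ^ n) = C c * ((X : HUV) ^ n - C (b ^ n)) := by
      rw [mul_sub, ← C_mul, C_mul_X_pow_eq_monomial]
    rw [this]
    exact Submodule.smul_mem _ _ (h1 n)

/-- If `v - a` and `v - b` are similar then `a` and `b` are conjugate by a constant. -/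
lemma conj_of_similar {a b : Polynomial ℍ[ℝ]} (h : Similar (lin a) (lin b)) :
    ∃ f : Polynomial ℍ[ℝ], a * f = f * b ∧ ∃ g, g * f = 1 := by
  obtain ⟨φ⟩ := h
  obtain ⟨r, hr⟩ := Submodule.Quotient.mk_surjective _ (φ (Submodule.Quotient.mk 1))
  obtain ⟨f, hf⟩ := exists_C b r
  have hf' : φ (Submodule.Quotient.mk 1) = Submodule.Quotient.mk (C f) := by
    rw [← hr]
    exact (Submodule.Quotient.eq _).2 hf
  have hrel : a * f = f * b := by
    have h0 : lin a • (Submodule.Quotient.mk (1 : HUV) :
        HUV ⧸ Submodule.span HUV {lin a}) = 0 := by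
      rw [← Submodule.Quotient.mk_smul, smul_eq_mul, mul_one]
      exact (Submodule.Quotient.mk_eq_zero _).2 (Submodule.mem_span_singleton_self _)
    have h1 : lin a • (Submodule.Quotient.mk (C f) : HUV ⧸ Submodule.span HUV {lin b}) = 0 := by
      rw [← hf', ← map_smul, h0, map_zero]
    rw [← Submodule.Quotient.mk_smul, smul_eq_mul] at h1
    have h2 := (Submodule.Quotient.mk_eq_zero _).1 h1
    have h3 : C (f * b - a * f) = lin a * C f - C f * lin b := by
      rw [lin, lin, sub_mul, mul_sub, ← C_mul, ← C_mul, X_mul_C, C_sub]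
      abel
    have h4 : (C (f * b - a * f) : HUV) ∈ Submodule.span HUV {lin b} := by
      rw [h3]
      exact Submodule.sub_mem _ h2 (Submodule.smul_mem _ _ (Submodule.mem_span_singleton_self _))
    have := C_mem_span h4
    exact (sub_eq_zero.1 this).symm
  refine ⟨f, hrel, ?_⟩
  obtain ⟨s, hs⟩ := φ.surjective (Submodule.Quotient.mk 1)
  obtain ⟨t, rfl⟩ := Submodule.Quotient.mk_surjective _ s
  obtain ⟨g, hg⟩ := exists_C a t
  have e1 : (Submodule.Quotient.mk t : HUV ⧸ Submodule.span HUV {lin a})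
      = C g • Submodule.Quotient.mk 1 := by
    rw [← Submodule.Quotient.mk_smul, smul_eq_mul, mul_one]
    exact (Submodule.Quotient.eq _).2 hg
  rw [e1, map_smul, hf', ← Submodule.Quotient.mk_smul, smul_eq_mul, ← C_mul] at hs
  have h5 := (Submodule.Quotient.eq _).1 hs
  rw [← C_1, ← C_sub] at h5
  exact ⟨g, sub_eq_zero.1 (C_mem_span h5)⟩

/-- `v - (u² + 1) i` and `v - (u² - 1) i - 2 u k` are not similar. -/
lemma not_similar_lin : ¬ Similar (lin pa) (lin pb) := by
  intro h
  obtain ⟨f, hf, g, hg⟩ := conj_of_similar h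
  have hf0 : f ≠ 0 := by rintro rfl; simp at hg
  have hg0 : g ≠ 0 := by rintro rfl; simp at hg
  have hd := congrArg natDegree hg
  rw [natDegree_mul hg0 hf0, natDegree_one] at hd
  obtain ⟨c, rfl⟩ := natDegree_eq_zero.1 (show f.natDegree = 0 by omega)
  have hc : c ≠ 0 := by rintro rfl; simp at hf0
  have h1 := congrArg (fun p => coeff p 1) hf
  simp only [coeff_mul_C, coeff_C_mul] at h1
  have ha : pa.coeff 1 = 0 := by
    simp [pa, coeff_one, coeff_X_pow]
  have hb : pb.coeff 1 = 2 * qk := by
    have h2 : (2 * X * C qk : Polynomial ℍ[ℝ]) = C (2 : ℍ[ℝ]) * (X * C qk) := by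
      rw [mul_assoc]; rfl
    rw [pb, coeff_add, h2, coeff_C_mul, coeff_mul_C, coeff_mul_C, coeff_X_one, one_mul]
    simp [coeff_one, coeff_X_pow]
  rw [ha, hb, zero_mul] at h1
  have h3 : (2 : ℍ[ℝ]) * qk ≠ 0 := by
    rw [two_mul]
    intro h
    have := congrArg QuaternionAlgebra.imK h
    simp [qk] at this
  exact mul_ne_zero hc h3 h1.symm

/-- `v - a` and `u - j` are not similar. -/
lemma not_similar_h (a : Polynomial ℍ[ℝ]) : ¬ Similar (lin a) (C ph) := by
  rintro ⟨φ⟩
  obtain ⟨r, hr⟩ := Submodule.Quotient.mk_surjective _ (φ (Submodule.Quotient.mk 1))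
  have hcomm : ∀ r : HUV, C (X ^ 2 + 1 : Polynomial ℍ[ℝ]) * r = r * (C (X + C qj) * C ph) := by
    intro r
    have e1 : (X + C qj) * ph = X ^ 2 + 1 := by
      rw [ph, add_mul, mul_sub, mul_sub, ← C_mul, jj, ← X_mul_C]
      simp only [C_neg, C_1]
      rw [pow_two]
      abel
    rw [← C_mul, e1]
    ext1 n
    rw [coeff_C_mul, coeff_mul_C, add_mul, mul_add, mul_one, one_mul, X_pow_mul]
  have h0 : C (X ^ 2 + 1 : Polynomial ℍ[ℝ]) • φ (Submodule.Quotient.mk 1) = 0 := by
    rw [← hr, ← Submodule.Quotient.mk_smul, smul_eq_mul, hcomm, ← mul_assoc]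
    exact (Submodule.Quotient.mk_eq_zero _).2
      (Submodule.smul_mem _ _ (Submodule.mem_span_singleton_self _))
  rw [← map_smul] at h0
  have h1 := (map_eq_zero_iff φ φ.injective).1 h0
  rw [← Submodule.Quotient.mk_smul, smul_eq_mul, mul_one] at h1
  have h2 := C_mem_span ((Submodule.Quotient.mk_eq_zero _).1 h1)
  have h3 := congrArg (fun p => coeff p 0) h2
  simp at h3

/-- The element `F = (u - j) (v - (u² + 1) i)` of `ℍ[u,v]` has degree one in `v` and two admissible
factorizations `F = (u - j) (v - (u² + 1) i) = (v - (u² - 1) i - 2 u k) (u - j)`, and the factor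
`v - (u² + 1) i` of the first one is similar to no factor of the second one.  Hence the factors of the
two factorizations cannot be matched up into similar pairs. -/
theorem result :
    ∃ (F : HUV) (l₁ l₂ : List HUV), F ≠ 0 ∧ F.natDegree = 1 ∧ IsAdmissible l₁ F ∧
      IsAdmissible l₂ F ∧ (∃ A ∈ l₁, ∀ B ∈ l₂, ¬ Similar A B) ∧ ¬ Matched l₁ l₂ := by
  have hns : ∀ B ∈ [lin pb, C ph], ¬ Similar (lin pa) B := by
    intro B hB
    simp only [List.mem_cons, List.not_mem_nil, or_false] at hB
    rcases hB with rfl | rfl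
    · exact not_similar_lin
    · exact not_similar_h pa
  have hprod : C ph * lin pa = lin pb * C ph := by
    rw [lin, lin, mul_sub, sub_mul, ← C_mul, ← C_mul, intertwine, X_mul_C]
  have hh : ph ≠ 0 := (monic_X_sub_C qj).ne_zero
  have hCh : (C ph : HUV) ≠ 0 := fun h => hh (C_eq_zero.1 h)
  refine ⟨C ph * lin pa, [C ph, lin pa], [lin pb, C ph],
    mul_ne_zero hCh (lin_monic pa).ne_zero, ?_, ⟨by simp, ?_⟩, ⟨by simp [hprod], ?_⟩,
    ⟨lin pa, by simp, hns⟩, ?_⟩
  · rw [natDegree_mul hCh (lin_monic pa).ne_zero, natDegree_C, lin_natDegree]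
  · intro A hA
    simp only [List.mem_cons, List.not_mem_nil, or_false] at hA
    rcases hA with rfl | rfl
    · exact ⟨h_irreducible, by rw [natDegree_C]; omega⟩
    · exact ⟨lin_irreducible pa, (lin_natDegree pa).le⟩
  · intro A hA
    simp only [List.mem_cons, List.not_mem_nil, or_false] at hA
    rcases hA with rfl | rfl
    · exact ⟨lin_irreducible pb, (lin_natDegree pb).le⟩
    · exact ⟨h_irreducible, by rw [natDegree_C]; omega⟩
  · rintro ⟨l, hl, hf⟩
    rcases l with _ | ⟨x, _ | ⟨y, l⟩⟩
    · simp at hf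
    · simp at hf
    · have h2 := (List.forall₂_cons.1 (List.forall₂_cons.1 hf).2).1
      exact hns y (hl.subset (by simp)) h2

end Pool.Agent.Results.MP_628392_al.LinearFactors
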